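import Pool.Agent.W500.FL.Stm

/-! Part U of project FL. -/

set_option autoImplicit false

namespace Pool.Agent.W402.FL.U

open Polynomial Pool.Agent.W500.FL

theorem main : S_U := by
  intro K _ p _ _ H
  classical
  have hp : 0 < p := (Fact.out : p.Prime).pos
  let T : Finset K[X] := H.image (fun h => derivative h)
  obtain ⟨f, hf⟩ := Set.countable_iff_exists_injOn.1 T.countable_toSet
  have hr : ∀ d : K[X], ∃ r : K[X], d ∈ T → r ∈ H ∧ derivative r = d := by
    intro d
    by_cases hd : d ∈ T
    · obtain ⟨r, hr, hrd⟩ := Finset.mem_image.1 hd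
      exact ⟨r, fun _ => ⟨hr, hrd⟩⟩
    · exact ⟨0, fun h => absurd h hd⟩
  choose r hr using hr
  let B : ℕ := H.sup (fun h => h.natDegree)
  let m : K[X] → ℕ := fun d => B + f d + 1
  have hB : ∀ h ∈ H, ∀ d, h.coeff (p * m d) = 0 := by
    intro h hh d
    apply Polynomial.coeff_eq_zero_of_natDegree_lt
    have h1 : h.natDegree ≤ B := Finset.le_sup (f := fun h : K[X] => h.natDegree) hh
    calc h.natDegree ≤ B := h1
      _ < m d := by simp only [m]; omega
      _ ≤ p * m d := Nat.le_mul_of_pos_left _ hp
  have hT : ∀ h ∈ H, derivative h ∈ T := fun h hh =>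
    Finset.mem_image_of_mem (fun h : K[X] => derivative h) hh
  refine ⟨fun h => X - r (derivative h) + X ^ (p * m (derivative h)) + h, ?_, ?_, ?_⟩
  · intro h hh
    have h1 := (hr _ (hT h hh)).2
    have h2 : derivative (X ^ (p * m (derivative h)) : K[X]) = 0 := by
      rw [derivative_X_pow, Nat.cast_mul, CharP.cast_eq_zero, zero_mul, C_0, zero_mul]
    simp only [derivative_add, derivative_sub, derivative_X]
    rw [h1, h2]
    ring
  · intro h _ k _ hhk
    simp only [hhk]
    ring
  · intro h hh k hk hne heq
    simp only at heq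
    by_cases hd : derivative h = derivative k
    · rw [hd] at heq
      exact hne (add_left_cancel heq)
    · have h1 := congrArg (fun q : K[X] => q.coeff (p * m (derivative h))) heq
      have hm : p * m (derivative h) ≠ p * m (derivative k) := by
        intro h2
        have h3 := Nat.eq_of_mul_eq_mul_left hp h2
        have h4 : f (derivative h) = f (derivative k) := by
          simp only [m] at h3
          omega
        exact hd (hf (hT h hh) (hT k hk) h4)
      simp only [coeff_add, coeff_sub] at h1
      rw [hB _ (hr _ (hT h hh)).1, hB _ (hr _ (hT k hk)).1, hB _ hh, hB _ hk,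
        coeff_X_pow_self, coeff_X_pow, if_neg hm] at h1
      simp at h1

end Pool.Agent.W402.FL.U
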